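import Pool.Agent.ACK.StmtsA

/-!
# MP_0b396c_gt, squad ACK, row ARI: arithmetic
-/

set_option autoImplicit false

namespace Pool.Agent.ACK.H75

open Pool.Agent.ACK

theorem ch9 (m : ℕ) : 120 * (m + 9).choose 5 =
    (m + 5) * ((m + 6) * ((m + 7) * ((m + 8) * (m + 9)))) := by
  have h := Nat.descFactorial_eq_factorial_mul_choose (m + 9) 5
  have h5 : Nat.factorial 5 = 120 := by decide
  rw [h5] at h
  rw [← h]
  have e1 : (m + 9).descFactorial 5 =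
      (m + 9 - 4) * ((m + 9 - 3) * ((m + 9 - 2) * ((m + 9 - 1) * ((m + 9 - 0) * 1)))) := rfl
  rw [e1]
  have a4 : m + 9 - 4 = m + 5 := by omega
  have a3 : m + 9 - 3 = m + 6 := by omega
  have a2 : m + 9 - 2 = m + 7 := by omega
  have a1 : m + 9 - 1 = m + 8 := by omega
  have a0 : m + 9 - 0 = m + 9 := by omega
  rw [a4, a3, a2, a1, a0]
  ring

theorem ch5 (m : ℕ) : 120 * (m + 5).choose 5 =
    (m + 5) * ((m + 1) * ((m + 2) * ((m + 3) * (m + 4)))) := by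
  have h := Nat.descFactorial_eq_factorial_mul_choose (m + 5) 5
  have h5 : Nat.factorial 5 = 120 := by decide
  rw [h5] at h
  rw [← h]
  have e1 : (m + 5).descFactorial 5 =
      (m + 5 - 4) * ((m + 5 - 3) * ((m + 5 - 2) * ((m + 5 - 1) * ((m + 5 - 0) * 1)))) := rfl
  rw [e1]
  have a4 : m + 5 - 4 = m + 1 := by omega
  have a3 : m + 5 - 3 = m + 2 := by omega
  have a2 : m + 5 - 2 = m + 3 := by omega
  have a1 : m + 5 - 1 = m + 4 := by omega
  have a0 : m + 5 - 0 = m + 5 := by omega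
  rw [a4, a3, a2, a1, a0]
  ring

theorem poly (m d : ℤ) (hd : 0 ≤ d) (hm : 2000000 + d ≤ m) :
    360 * ((m + 5) * ((m + 6) * ((m + 7) * ((m + 8) * (m + 9))))) + d * m ^ 4 <
      361 * ((m + 5) * ((m + 1) * ((m + 2) * ((m + 3) * (m + 4))))) := by
  have m1 : 1 ≤ m := by linarith
  have m0 : 0 ≤ m := by linarith
  have p1 : m ≤ m ^ 3 := by nlinarith [mul_nonneg m0 (sq_nonneg m), sq_nonneg (m - 1)]
  have p2 : m ^ 2 ≤ m ^ 3 := by nlinarith [sq_nonneg m]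
  have p3 : 1 ≤ m ^ 3 := by linarith
  obtain ⟨q, hq⟩ : ∃ q : ℤ, q = m ^ 4 - 7190 * m ^ 3 - 107965 * m ^ 2 - 575950 * m - 1079976 :=
    ⟨_, rfl⟩
  have h1 : m ^ 3 * (m - 1771081) ≤ q := by
    rw [hq]
    have e : m ^ 3 * (m - 1771081) = m ^ 4 - 1771081 * m ^ 3 := by ring
    rw [e]
    linarith
  have h2 : m ^ 3 * (d + 1) ≤ m ^ 3 * (m - 1771081) :=
    mul_le_mul_of_nonneg_left (by linarith) (by linarith)
  have h3 : m ^ 3 * (d + 1) ≤ q := h2.trans h1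
  have h4 : 0 ≤ m ^ 3 * (d + 1) := mul_nonneg (by linarith) (by linarith)
  have h5 : m * (m ^ 3 * (d + 1)) ≤ (m + 5) * q :=
    mul_le_mul (by linarith) h3 h4 (by linarith)
  have h6 : m * (m ^ 3 * (d + 1)) = d * m ^ 4 + m ^ 4 := by ring
  have h7 : 0 < m ^ 4 := by positivity
  have h8 : 361 * ((m + 5) * ((m + 1) * ((m + 2) * ((m + 3) * (m + 4))))) -
      360 * ((m + 5) * ((m + 6) * ((m + 7) * ((m + 8) * (m + 9))))) = (m + 5) * q := by
    rw [hq]; ring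
  linarith

/-- Row ARI. -/
theorem ari : AriStmt := by
  intro K
  refine ⟨2000000 + 11259734400 * K, fun m hm => ?_⟩
  have h9 := ch9 m
  have h5 := ch5 m
  obtain ⟨X, hX⟩ : ∃ X, X = (m + 9).choose 5 := ⟨_, rfl⟩
  obtain ⟨Y, hY⟩ : ∃ Y, Y = (m + 5).choose 5 := ⟨_, rfl⟩
  rw [← hX] at h9 ⊢
  rw [← hY] at h5 ⊢
  have hp := poly (m : ℤ) (11259734400 * K : ℤ) (by positivity) (by exact_mod_cast hm)
  have hp' : 360 * ((m + 5) * ((m + 6) * ((m + 7) * ((m + 8) * (m + 9))))) +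
      11259734400 * K * m ^ 4 < 361 * ((m + 5) * ((m + 1) * ((m + 2) * ((m + 3) * (m + 4))))) := by
    exact_mod_cast hp
  rw [← h9, ← h5] at hp'
  have h1 : (2 * m + 17) ^ 4 ≤ (19 * m) ^ 4 := Nat.pow_le_pow_left (by omega) 4
  have h2 : (19 * m) ^ 4 = 130321 * m ^ 4 := by ring
  rw [h2] at h1
  have h3 : 86400 * K * (2 * m + 17) ^ 4 ≤ 86400 * K * (130321 * m ^ 4) :=
    Nat.mul_le_mul_left _ h1
  have h4 : 86400 * K * (130321 * m ^ 4) = 11259734400 * K * m ^ 4 := by ring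
  have h6 : 86400 * K * (2 * m + 17) ^ 4 = 120 * (720 * K * (2 * m + 17) ^ 4) := by ring
  rw [h4, h6] at h3
  omega

end Pool.Agent.ACK.H75
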